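import Pool.Agent.Lib_helper55.ConnPair.InNP
import Pool.Agent.Lib_helper55.ConnPair.Deg

/-!
Problem MP_cdd24e_lc: the complexity of the second coordinate of a connectivity pair, in terms of the
maximum degree of the vertices other than `v, w`: NP-complete for degree four, a formula for degree
three.
-/

set_option autoImplicit false

namespace Pool.Agent.Results.MP_cdd24e_lc.DegreeDichotomy

open Pool.Agent.Poly Pool.Agent.ConnPair

/-- (1) Deciding whether some disconnecting pair has at most `k` vertices and at most `m` edges is in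
NP, and on the instances allowed in the question this is the same as deciding `l ≤ m` for the second
coordinate `l` of the connectivity pair `(k, l)`. (2) CLIQUE reduces to this problem in polynomial
time, by a reduction all of whose values are instances allowed in the question in which all vertices
other than `v, w` have degree at most four. (3) For non-adjacent `v ≠ w` and `k ≤ κ(v, w)` there is
exactly one connectivity pair `(k, l)`, and if all vertices other than `v, w` have degree at most `d`,
then `κ(v, w) - k ≤ l ≤ ⌊d / 2⌋ (κ(v, w) - k)`, so `l = κ(v, w) - k` for `d = 3`. -/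
theorem result :
    (InNP MixedCut ∧ ∀ d I, Valid d I → (SecondLE I ↔ MixedCut I)) ∧
    (∃ f : List (List ℕ) × ℕ → List (List ℕ) × ℕ × ℕ × ℕ × ℕ, PolyTime f ∧
      (∀ I, Valid 4 (f I)) ∧ ∀ I, HasClique I ↔ SecondLE (f I)) ∧
    ∀ (V : Type) [Finite V] (G : SimpleGraph V) (v w : V), v ≠ w → ¬ G.Adj v w →
      ∀ kap, IsLeast {s | HasPair G v w s 0} kap → ∀ k ≤ kap,
        (∃! l, IsConnPair G v w k l) ∧ ∀ l, IsConnPair G v w k l →
          ∀ d, (∀ x, x ≠ v → x ≠ w → (G.neighborSet x).ncard ≤ d) →
            kap - k ≤ l ∧ l ≤ d / 2 * (kap - k) := by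
  refine ⟨⟨mixedCut_inNP, ?_⟩, ⟨red, pt_red, valid_red, red_iff⟩, ?_⟩
  · rintro d ⟨L, v, w, k, m⟩ ⟨hv, hw, hne, hvw, hk, -⟩
    have hne' : (⟨v, hv⟩ : Fin L.length) ≠ ⟨w, hw⟩ := fun h => hne (Fin.mk.inj h)
    obtain ⟨F, hF, hFm⟩ := existsUnique_connPair hne' hvw hk
    constructor
    · rintro ⟨hv', hw', l, hl, h⟩
      have h1 := (hF l).mp h
      subst h1
      obtain ⟨s, hs, t, ht, h2⟩ := (hFm m).mpr hl
      exact ⟨hv', hw', s, hs, t, ht, h2⟩
    · rintro ⟨hv', hw', s, hs, t, ht, h⟩
      have h1 := (hFm m).mp ⟨s, hs, t, ht, h⟩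
      exact ⟨hv', hw', F, h1, (hF F).mpr rfl⟩
  · intro V _ G v w hne hvw kap hkap k hk
    classical
    have hex : ∃ t, HasPair G v w 0 t := exists_hasPair hne
    have hlam : IsLeast {t | HasPair G v w 0 t} (Nat.find hex) :=
      ⟨Nat.find_spec hex, fun t ht => Nat.find_min' hex ht⟩
    obtain ⟨F, hF, -⟩ := existsUnique_connPair hne hvw (k := k)
      (fun s hs => hk.trans (hkap.2 hs))
    refine ⟨⟨F, (hF F).mpr rfl, fun l hl => (hF l).mp hl⟩, ?_⟩
    intro l hl d hd
    obtain ⟨⟨h1, h2, h3⟩, -⟩ := bounds_of_degree hne hvw hd hkap hlam hl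
    exact ⟨by omega, h3⟩

end Pool.Agent.Results.MP_cdd24e_lc.DegreeDichotomy
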